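import Mathlib

/-!
# Elements of unit stable range one are not closed under multiplication

Let `k` be an infinite field of characteristic two and `A` the polynomial ring over `ZMod 2` in
variables `X_{(τ, m)}` with `τ ∈ k³`, `m ∈ ℕ`; let `ev i : A → k` send `X_{(τ, m)}` to `τ i`. Let
`L` be the localization of `A` at the irreducible polynomials `π` with
`ev 0 π = ev 1 π * ev 2 π ≠ 0`. All units of `L` satisfy this relation, and `a + u g` can be made a
unit by a variable `u` as soon as the relation can be solved for its values.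
-/

namespace Pool.Agent.Results.MP_5a9afa_al.ProductUsr1

open MvPolynomial

/-- `a` has unit stable range one: whenever `R a + R b = R` there is a unit `u` such that `a + u b`
is a unit. -/
def HasUsr1 {R : Type*} [Ring R] (a : R) : Prop :=
  ∀ b : R, (∃ x y : R, x * a + y * b = 1) → ∃ u : R, IsUnit u ∧ IsUnit (a + u * b)

/-- The second formulation of the problem file: for every `x` there is a unit `u` such that
`(u + x) a - 1` is a unit. -/
def HasUsr1' {R : Type*} [Ring R] (a : R) : Prop :=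
  ∀ x : R, ∃ u : R, IsUnit u ∧ IsUnit ((u + x) * a - 1)

/-- The field of constants for the values. -/
abbrev k := AlgebraicClosure (ZMod 2)

/-- The index set of the variables. -/
abbrev V := (Fin 3 → k) × ℕ

/-- The polynomial ring. -/
abbrev A := MvPolynomial V (ZMod 2)

/-- The three evaluations. -/
noncomputable def ev (i : Fin 3) : A →ₐ[ZMod 2] k := aeval fun v : V => v.1 i

/-- The relation that the values of units satisfy. -/
def Rel (z : Fin 3 → k) : Prop := z 0 = z 1 * z 2 ∧ z 0 ≠ 0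

/-- The polynomials whose values satisfy the relation. -/
def Good (f : A) : Prop := Rel fun i => ev i f

theorem Rel.ne {z : Fin 3 → k} (h : Rel z) (i : Fin 3) : z i ≠ 0 := by
  obtain ⟨h1, h2⟩ := h
  fin_cases i
  · exact h2
  · intro h3; apply h2; rw [h1]; simp only [Fin.mk_one, Fin.isValue] at h3; rw [h3, zero_mul]
  · intro h3; apply h2; rw [h1]; simp only [Fin.reduceFinMk, Fin.isValue] at h3; rw [h3, mul_zero]

theorem Rel.mul {z w : Fin 3 → k} (h : Rel z) (h' : Rel w) : Rel fun i => z i * w i := by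
  refine ⟨?_, mul_ne_zero h.2 h'.2⟩
  show z 0 * w 0 = z 1 * w 1 * (z 2 * w 2)
  rw [h.1, h'.1]; ring

theorem Rel.of_mul {z w : Fin 3 → k} (h : Rel z) (h' : Rel fun i => z i * w i) : Rel w := by
  have h2 := h'.2
  refine ⟨?_, right_ne_zero_of_mul h2⟩
  have h3 : z 0 * w 0 = z 1 * w 1 * (z 2 * w 2) := h'.1
  apply mul_left_cancel₀ h.2
  rw [h3]
  conv_rhs => rw [h.1]
  ring

theorem Good.mul {f g : A} (h : Good f) (h' : Good g) : Good (f * g) := by
  have := Rel.mul h h'
  simpa only [Good, map_mul] using this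

/-- The multiplicative set generated by the good irreducible polynomials. -/
noncomputable def S : Submonoid A := Submonoid.closure {p | Irreducible p ∧ Good p}

theorem good_one : Good 1 := by
  refine ⟨?_, ?_⟩ <;> simp

theorem good_of_mul_aux {s : A} (hs : s ∈ S) : ∀ f f' : A, f * f' = s → Good f ∧ Good f' := by
  induction hs using Submonoid.closure_induction_left with
  | one =>
    intro f f' h
    have key : ∀ f f' : A, f * f' = 1 → f = 1 := by
      intro f f' h
      obtain ⟨r, hr, hf⟩ := isUnit_iff_eq_C_of_isReduced.1 (IsUnit.of_mul_eq_one f' h)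
      have : r = 1 := by
        have : ∀ r : ZMod 2, r ≠ 0 → r = 1 := by decide
        exact this r hr.ne_zero
      rw [hf, this, C_1]
    rw [key f f' h, key f' f (by rw [mul_comm]; exact h)]
    exact ⟨good_one, good_one⟩
  | mul_left p hp y hy ih =>
    intro f f' h
    have hprime : Prime p := UniqueFactorizationMonoid.irreducible_iff_prime.1 hp.1
    have hdvd : p ∣ f * f' := ⟨y, h⟩
    rcases hprime.dvd_or_dvd hdvd with ⟨f1, rfl⟩ | ⟨f1, rfl⟩
    · have h1 : f1 * f' = y := by
        apply mul_left_cancel₀ hprime.ne_zero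
        rw [← h]; ring
      obtain ⟨h2, h3⟩ := ih _ _ h1
      exact ⟨hp.2.mul h2, h3⟩
    · have h1 : f * f1 = y := by
        apply mul_left_cancel₀ hprime.ne_zero
        rw [← h]; ring
      obtain ⟨h2, h3⟩ := ih _ _ h1
      exact ⟨h2, hp.2.mul h3⟩

theorem good_of_mem {s : A} (hs : s ∈ S) : Good s :=
  (good_of_mul_aux hs s 1 (mul_one s)).1

theorem good_of_dvd {s f : A} (hs : s ∈ S) (h : f ∣ s) : Good f := by
  obtain ⟨f', hf⟩ := h
  exact (good_of_mul_aux hs f f' hf.symm).1

theorem ne_zero_of_mem {s : A} (hs : s ∈ S) : s ≠ 0 := by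
  rintro rfl
  have := (good_of_mem hs).2
  simp at this

theorem S_le : S ≤ nonZeroDivisors A := fun _ hs => mem_nonZeroDivisors_of_ne_zero (ne_zero_of_mem hs)

/-- The ring of the example. -/
abbrev L := Localization S

theorem algebraMap_inj : Function.Injective (algebraMap A L) := IsLocalization.injective L S_le

/-- The evaluations on `L`. -/
noncomputable def Ev (i : Fin 3) : L →+* k :=
  IsLocalization.lift (M := S) (g := (ev i).toRingHom) fun y =>
    isUnit_iff_ne_zero.2 ((good_of_mem y.2).ne i)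

theorem Ev_algebraMap (i : Fin 3) (f : A) : Ev i (algebraMap A L f) = ev i f :=
  IsLocalization.lift_eq _ f

theorem rel_of_isUnit {u : L} (hu : IsUnit u) : Rel fun i => Ev i u := by
  obtain ⟨v, hv⟩ := hu.exists_right_inv
  obtain ⟨⟨f, s⟩, h1⟩ := IsLocalization.surj S u
  obtain ⟨⟨f', s'⟩, h2⟩ := IsLocalization.surj S v
  simp only at h1 h2
  have h3 : f * f' = (s * s' : A) := by
    apply algebraMap_inj
    rw [map_mul, map_mul, ← h1, ← h2]
    calc u * algebraMap A L s * (v * algebraMap A L s')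
        = (u * v) * (algebraMap A L s * algebraMap A L s') := by ring
      _ = _ := by rw [hv, one_mul]
  have h4 := (good_of_mul_aux (mul_mem s.2 s'.2) f f' h3).1
  have h5 := good_of_mem s.2
  apply Rel.of_mul h5
  have : (fun i => ev i (s : A) * Ev i u) = fun i => ev i f := by
    funext i
    rw [← Ev_algebraMap, ← Ev_algebraMap, ← h1, map_mul, mul_comm]
  rw [this]
  exact h4

theorem Good.irr_isUnit {p : A} (h1 : Irreducible p) (h2 : Good p) : IsUnit (algebraMap A L p) :=
  IsLocalization.map_units L (⟨p, Submonoid.subset_closure ⟨h1, h2⟩⟩ : S)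

/-- A polynomial `a + g X_t`, with `a`, `g` coprime, not involving the variable `X_t` and `g ≠ 0`, is
irreducible. -/
theorem irreducible_linear {a g : A} {t : V} (ha : t ∉ a.vars) (hg : t ∉ g.vars) (hg0 : g ≠ 0)
    (hrel : IsRelPrime a g) : Irreducible (a + g * X t) := by
  classical
  -- the homomorphism to `A[Z]` that sends `X t` to `Z` and fixes the other variables
  let Φ : A →+* Polynomial A :=
    eval₂Hom (Polynomial.C.comp C) fun v => if v = t then Polynomial.X else Polynomial.C (X v)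
  have hΦC : ∀ f : A, t ∉ f.vars → Φ f = Polynomial.C f := by
    intro f hf
    refine hom_congr_vars (f₁ := Φ) (f₂ := Polynomial.C) ?_ ?_ rfl
    · ext r; simp [Φ]
    · intro i hi _
      have : i ≠ t := by rintro rfl; exact hf hi
      simp [Φ, this]
  have hΦt : Φ (X t) = Polynomial.X := by simp [Φ]
  have hev : ∀ f : A, (Φ f).eval (X t) = f := by
    intro f
    have : ((Polynomial.evalRingHom (X t : A)).comp Φ) = RingHom.id A := by
      apply MvPolynomial.ringHom_ext
      · intro r; simp [Φ]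
      · intro i
        by_cases h : i = t
        · subst h; simp [Φ]
        · simp [Φ, h]
    exact RingHom.congr_fun this f
  have hval : Φ (a + g * X t) = Polynomial.C a + Polynomial.C g * Polynomial.X := by
    rw [map_add, map_mul, hΦC a ha, hΦC g hg, hΦt]
  have hdeg : (Polynomial.C a + Polynomial.C g * Polynomial.X : Polynomial A).natDegree = 1 := by
    rw [add_comm]; exact Polynomial.natDegree_linear hg0
  have hne : (Polynomial.C a + Polynomial.C g * Polynomial.X : Polynomial A) ≠ 0 := by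
    intro h; rw [h] at hdeg; simp at hdeg
  have main : ∀ P Q : A, a + g * X t = P * Q → (Φ Q).natDegree = 0 → IsUnit Q := by
    intro P Q h hQ
    have h1 : Φ Q = Polynomial.C Q := by
      have h2 := Polynomial.eq_C_of_natDegree_eq_zero hQ
      have h3 := hev Q
      rw [h2, Polynomial.eval_C] at h3
      rw [h2, h3]
    have h2 : Polynomial.C a + Polynomial.C g * Polynomial.X = Φ P * Polynomial.C Q := by
      rw [← hval, h, map_mul, h1]
    have h3 := congrArg (fun p : Polynomial A => p.coeff 0) h2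
    have h4 := congrArg (fun p : Polynomial A => p.coeff 1) h2
    simp only [Polynomial.coeff_mul_C, Polynomial.coeff_add, Polynomial.coeff_C_zero,
      Polynomial.coeff_C_mul, Polynomial.coeff_X_zero, Polynomial.coeff_X_one, mul_zero,
      add_zero, mul_one, Polynomial.coeff_C_succ, zero_add] at h3 h4
    exact hrel ⟨_, by rw [h3, mul_comm]⟩ ⟨_, by rw [h4, mul_comm]⟩
  constructor
  · intro hu
    have h1 : IsUnit (Φ (a + g * X t)) := hu.map Φ
    rw [hval] at h1
    have := Polynomial.natDegree_eq_zero_of_isUnit h1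
    rw [hdeg] at this
    exact one_ne_zero this
  · intro P Q h
    have h1 : Φ P * Φ Q = Polynomial.C a + Polynomial.C g * Polynomial.X := by
      rw [← hval, h, map_mul]
    have hP : Φ P ≠ 0 := by intro h2; rw [h2, zero_mul] at h1; exact hne h1.symm
    have hQ : Φ Q ≠ 0 := by intro h2; rw [h2, mul_zero] at h1; exact hne h1.symm
    have h2 := congrArg Polynomial.natDegree h1
    rw [Polynomial.natDegree_mul hP hQ, hdeg] at h2
    rcases Nat.eq_zero_or_pos (Φ P).natDegree with h3 | h3
    · left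
      exact main Q P (by rw [h, mul_comm]) h3
    · right
      exact main P Q h (by omega)

/-- The main step: if the relation can be solved for the values, then `a + u g` is a unit for a
suitable unit `u`. -/
theorem exists_unit {a g : L} (hcop : ∃ x y : L, x * a + y * g = 1) (hg0 : g ≠ 0)
    {τ : Fin 3 → k} (hτ : Rel τ) (hν : Rel fun i => Ev i a + τ i * Ev i g) :
    ∃ u : L, IsUnit u ∧ IsUnit (a + u * g) := by
  classical
  obtain ⟨x, y, hxy⟩ := hcop
  obtain ⟨⟨α1, s1⟩, ha⟩ := IsLocalization.surj S a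
  obtain ⟨⟨γ1, s2⟩, hg⟩ := IsLocalization.surj S g
  obtain ⟨⟨x1, t1⟩, hx⟩ := IsLocalization.surj S x
  obtain ⟨⟨y1, t2⟩, hy⟩ := IsLocalization.surj S y
  simp only at ha hg hx hy
  -- common denominators
  obtain ⟨s, hs⟩ : ∃ s : A, s = s1 * s2 := ⟨_, rfl⟩
  have hsS : s ∈ S := by rw [hs]; exact mul_mem s1.2 s2.2
  obtain ⟨α, hα⟩ : ∃ α : A, α = α1 * s2 := ⟨_, rfl⟩
  obtain ⟨γ, hγ⟩ : ∃ γ : A, γ = γ1 * s1 := ⟨_, rfl⟩
  have ha' : a * algebraMap A L s = algebraMap A L α := by
    rw [hs, hα, map_mul, map_mul, ← ha]; ring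
  have hg' : g * algebraMap A L s = algebraMap A L γ := by
    rw [hs, hγ, map_mul, map_mul, ← hg]; ring
  have hγ0 : γ ≠ 0 := by
    intro h
    rw [h, map_zero] at hg'
    rcases mul_eq_zero.1 hg' with h1 | h1
    · exact hg0 h1
    · exact ne_zero_of_mem hsS (algebraMap_inj (by rw [h1, map_zero]))
  have hcomb : (x1 * t2) * α + (y1 * t1) * γ = s * (t1 * t2 : A) := by
    apply algebraMap_inj
    simp only [map_add, map_mul]
    rw [← ha', ← hg', ← hx, ← hy]
    calc x * algebraMap A L t1 * algebraMap A L t2 * (a * algebraMap A L s) +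
          y * algebraMap A L t2 * algebraMap A L t1 * (g * algebraMap A L s)
        = (x * a + y * g) * (algebraMap A L s * (algebraMap A L t1 * algebraMap A L t2)) := by ring
      _ = _ := by rw [hxy, one_mul]
  obtain ⟨γ', α', d, hrel, hγd, hαd⟩ :=
    UniqueFactorizationMonoid.exists_reduced_factors γ hγ0 α
  have hdS : d ∣ s * (t1 * t2 : A) := by
    rw [← hcomb, ← hγd, ← hαd]
    exact ⟨x1 * t2 * α' + y1 * t1 * γ', by ring⟩
  have hprod : s * (t1 * t2 : A) ∈ S := mul_mem hsS (mul_mem t1.2 t2.2)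
  have hdgood : Good d := good_of_dvd hprod hdS
  have hdunit : IsUnit (algebraMap A L d) :=
    isUnit_of_dvd_unit (map_dvd (algebraMap A L) hdS) (IsLocalization.map_units L (⟨_, hprod⟩ : S))
  have hγ'0 : γ' ≠ 0 := by rintro rfl; apply hγ0; rw [← hγd, mul_zero]
  -- a new variable
  obtain ⟨m, hm⟩ : ∃ m : ℕ, (τ, m) ∉ α'.vars ∪ γ'.vars := by
    have hinj : Function.Injective fun m : ℕ => ((τ, m) : V) := fun a b h => (Prod.mk.inj h).2
    obtain ⟨m, hm⟩ := Infinite.exists_notMem_finset ((α'.vars ∪ γ'.vars).preimage _ hinj.injOn)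
    exact ⟨m, fun h => hm (Finset.mem_preimage.2 h)⟩
  rw [Finset.mem_union, not_or] at hm
  have hirr : Irreducible (α' + γ' * X (τ, m)) :=
    irreducible_linear hm.1 hm.2 hγ'0 hrel.symm
  have hgood : Good (α' + γ' * X (τ, m)) := by
    apply Rel.of_mul hdgood
    have h1 := Rel.mul (good_of_mem hsS) hν
    have h2 : (fun i => ev i d * ev i (α' + γ' * X (τ, m))) =
        fun i => ev i s * (Ev i a + τ i * Ev i g) := by
      funext i
      have e1 : ev i α = Ev i a * ev i s := by
        rw [← Ev_algebraMap, ← Ev_algebraMap, ← ha', map_mul]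
      have e2 : ev i γ = Ev i g * ev i s := by
        rw [← Ev_algebraMap, ← Ev_algebraMap, ← hg', map_mul]
      have e3 : ev i (X (τ, m)) = τ i := by simp [ev]
      rw [← map_mul, mul_add, ← mul_assoc, hγd, hαd, map_add, map_mul, e1, e2, e3]
      ring
    rw [h2]; exact h1
  have hXgood : Good (X (τ, m)) := by
    have : (fun i => ev i (X (τ, m))) = τ := by funext i; simp [ev]
    unfold Good; rw [this]; exact hτ
  have hXunit : IsUnit (algebraMap A L (X (τ, m))) := Good.irr_isUnit (X_prime).irreducible hXgood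
  refine ⟨algebraMap A L (X (τ, m)), hXunit, ?_⟩
  have hfin : (a + algebraMap A L (X (τ, m)) * g) * algebraMap A L s =
      algebraMap A L d * algebraMap A L (α' + γ' * X (τ, m)) := by
    rw [← map_mul (algebraMap A L) d, mul_add, ← mul_assoc, hγd, hαd, map_add, map_mul, ← ha',
      ← hg']
    ring
  have hu : IsUnit ((a + algebraMap A L (X (τ, m)) * g) * algebraMap A L s) := by
    rw [hfin]; exact hdunit.mul (Good.irr_isUnit hirr hgood)
  exact isUnit_of_mul_isUnit_left hu

/-- Solving the relation for the values, first case. -/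
theorem exists_tau {α γ : Fin 3 → k} (h0 : α 0 ≠ 0) (h1 : α 1 ≠ 0) (h2 : α 2 = 0) (hg : γ 2 ≠ 0) :
    ∃ τ : Fin 3 → k, Rel τ ∧ Rel fun i => α i + τ i * γ i := by
  classical
  obtain ⟨t, ht⟩ := Infinite.exists_notMem_finset
    ({0, -(α 1 * γ 2) / (γ 1 * γ 2 - γ 0), -(α 1) / γ 1} : Finset k)
  simp only [Finset.mem_insert, Finset.mem_singleton, not_or] at ht
  obtain ⟨ht0, ht1, ht2⟩ := ht
  have hD : α 1 * γ 2 + t * (γ 1 * γ 2 - γ 0) ≠ 0 := by
    intro h
    by_cases h3 : γ 1 * γ 2 - γ 0 = 0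
    · rw [h3, mul_zero, add_zero] at h
      exact mul_ne_zero h1 hg h
    · apply ht1
      rw [eq_div_iff h3]
      exact eq_neg_of_add_eq_zero_right h
  have hE : α 1 + t * γ 1 ≠ 0 := by
    intro h
    by_cases h3 : γ 1 = 0
    · rw [h3, mul_zero, add_zero] at h
      exact h1 h
    · apply ht2
      rw [eq_div_iff h3]
      exact eq_neg_of_add_eq_zero_right h
  obtain ⟨D, hDd⟩ : ∃ D, D = α 1 * γ 2 + t * (γ 1 * γ 2 - γ 0) := ⟨_, rfl⟩
  rw [← hDd] at hD
  have hr : α 0 / D ≠ 0 := div_ne_zero h0 hD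
  have hrD : α 0 / D * D = α 0 := div_mul_cancel₀ _ hD
  refine ⟨![t * (α 0 / D), t, α 0 / D], ⟨rfl, mul_ne_zero ht0 hr⟩, ?_, ?_⟩
  · show α 0 + t * (α 0 / D) * γ 0 = (α 1 + t * γ 1) * (α 2 + α 0 / D * γ 2)
    rw [h2]
    generalize α 0 / D = r at *
    rw [← hrD, hDd]
    ring
  · show α 0 + t * (α 0 / D) * γ 0 ≠ 0
    have : α 0 + t * (α 0 / D) * γ 0 = (α 1 + t * γ 1) * (α 0 / D * γ 2) := by
      generalize α 0 / D = r at *
      rw [← hrD, hDd]
      ring
    rw [this]
    exact mul_ne_zero hE (mul_ne_zero hr hg)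

/-- Solving the relation for the values, second case. -/
theorem exists_tau' {α γ : Fin 3 → k} (h0 : α 0 ≠ 0) (h2 : α 2 ≠ 0) (h1 : α 1 = 0) (hg : γ 1 ≠ 0) :
    ∃ τ : Fin 3 → k, Rel τ ∧ Rel fun i => α i + τ i * γ i := by
  obtain ⟨τ, h3, h4⟩ := exists_tau (α := ![α 0, α 2, α 1]) (γ := ![γ 0, γ 2, γ 1]) h0 h2 h1 hg
  refine ⟨![τ 0, τ 2, τ 1], ⟨?_, h3.2⟩, ?_, h4.2⟩
  · show τ 0 = τ 2 * τ 1
    rw [h3.1, mul_comm]
  · show α 0 + τ 0 * γ 0 = (α 1 + τ 2 * γ 1) * (α 2 + τ 1 * γ 2)
    have h5 : α 0 + τ 0 * γ 0 = (α 2 + τ 1 * γ 2) * (α 1 + τ 2 * γ 1) := h4.1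
    rw [h5, mul_comm]

/-- Unit stable range one implies the second formulation. -/
theorem HasUsr1.prime {R : Type*} [CommRing R] {a : R} (h : HasUsr1 a) : HasUsr1' a := by
  intro x
  obtain ⟨u, hu, hv⟩ := h (1 - x * a) ⟨x, 1, by ring⟩
  obtain ⟨w, rfl⟩ := hu
  refine ⟨-(↑w⁻¹ : R), w⁻¹.isUnit.neg, ?_⟩
  have h1 : (-(↑w⁻¹ : R) + x) * a - 1 = -(↑w⁻¹ * (a + ↑w * (1 - x * a))) := by
    have h2 : (↑w⁻¹ : R) * ↑w = 1 := w.inv_mul
    linear_combination (1 - x * a) * h2
  rw [h1]
  exact (w⁻¹.isUnit.mul hv).neg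

/-- The element `a`. -/
noncomputable def ea : L := algebraMap A L (X (![1, 1, 0], 0))

/-- The element `b`. -/
noncomputable def eb : L := algebraMap A L (X (![1, 0, 1], 0))

theorem Ev_ea (i : Fin 3) : Ev i ea = (![1, 1, 0] : Fin 3 → k) i := by
  rw [ea, Ev_algebraMap]; simp [ev]

theorem Ev_eb (i : Fin 3) : Ev i eb = (![1, 0, 1] : Fin 3 → k) i := by
  rw [eb, Ev_algebraMap]; simp [ev]

theorem usr_ea : HasUsr1 ea := by
  intro g hg
  have hcop := hg
  obtain ⟨x, y, hxy⟩ := hg
  have h2 : Ev 2 g ≠ 0 := by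
    intro h
    have := congrArg (Ev 2) hxy
    rw [map_add, map_mul, map_mul, h, Ev_ea, map_one] at this
    simp at this
  have hg0 : g ≠ 0 := by rintro rfl; exact h2 (map_zero _)
  obtain ⟨τ, hτ, hν⟩ := exists_tau (α := fun i => Ev i ea) (γ := fun i => Ev i g)
    (by simp [Ev_ea]) (by simp [Ev_ea]) (by simp [Ev_ea]) h2
  exact exists_unit hcop hg0 hτ hν

theorem usr_eb : HasUsr1 eb := by
  intro g hg
  have hcop := hg
  obtain ⟨x, y, hxy⟩ := hg
  have h2 : Ev 1 g ≠ 0 := by
    intro h
    have := congrArg (Ev 1) hxy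
    rw [map_add, map_mul, map_mul, h, Ev_eb, map_one] at this
    simp at this
  have hg0 : g ≠ 0 := by rintro rfl; exact h2 (map_zero _)
  obtain ⟨τ, hτ, hν⟩ := exists_tau' (α := fun i => Ev i eb) (γ := fun i => Ev i g)
    (by simp [Ev_eb]) (by simp [Ev_eb]) (by simp [Ev_eb]) h2
  exact exists_unit hcop hg0 hτ hν

theorem not_usr' : ¬ HasUsr1' (ea * eb) := by
  intro h
  obtain ⟨u, hu, hv⟩ := h 0
  have h1 := rel_of_isUnit hu
  have h2 := rel_of_isUnit hv
  have h3 := h1.ne 0
  have h4 := h2.1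
  simp only [map_sub, map_mul, map_add, Ev_ea, Ev_eb, map_zero, map_one] at h4
  simp at h4 h3
  have h5 : (1 : k) + 1 = 0 := CharTwo.add_self_eq_zero 1
  apply h3
  have h6 : Ev 0 u = 1 + 1 := by linear_combination h4
  rw [h6, h5]

/-- There are a commutative domain and two elements of unit stable range one whose product does not
have unit stable range one, for either formulation of this property. -/
theorem result : ∃ (R : Type) (_ : CommRing R) (_ : IsDomain R) (a b : R),
    (HasUsr1 a ∧ HasUsr1' a) ∧ (HasUsr1 b ∧ HasUsr1' b) ∧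
      ¬ HasUsr1 (a * b) ∧ ¬ HasUsr1' (a * b) :=
  ⟨L, inferInstance, IsLocalization.isDomain_localization S_le, ea, eb,
    ⟨usr_ea, usr_ea.prime⟩, ⟨usr_eb, usr_eb.prime⟩, fun h => not_usr' h.prime, not_usr'⟩

end Pool.Agent.Results.MP_5a9afa_al.ProductUsr1
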